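import Pool.Agent.H923R2.FP.Stubs

/-! Task ODE: global existence for ordinary differential equations with an a priori bound. -/

namespace Pool.Agent.H923R2.FP.T_ODE

open Pool.Agent.H923R2.FP Set Metric

variable {E : Type} [NormedAddCommGroup E] [NormedSpace ℝ E]

/-- a solution on `[0,T1]` -/
def Has (V : E → E) (x0 : E) (T1 : ℝ) : Prop :=
  ∃ x : ℝ → E, x 0 = x0 ∧ ∀ t ∈ Icc 0 T1, HasDerivWithinAt x (V (x t)) (Icc 0 T1) t

theorem glue {V : E → E} {x α : ℝ → E} {T1 T2 : ℝ} (h0 : 0 ≤ T1) (h12 : T1 ≤ T2)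
    (hx : ∀ t ∈ Icc 0 T1, HasDerivWithinAt x (V (x t)) (Icc 0 T1) t)
    (hα : ∀ t ∈ Icc T1 T2, HasDerivWithinAt α (V (α t)) (Icc T1 T2) t) (hxa : α T1 = x T1) :
    ∀ t ∈ Icc 0 T2, HasDerivWithinAt (fun t => if t ≤ T1 then x t else α t)
      (V ((fun t => if t ≤ T1 then x t else α t) t)) (Icc 0 T2) t := by
  intro t ht
  have e1 : ∀ s ∈ Icc (0 : ℝ) T1, (fun t => if t ≤ T1 then x t else α t) s = x s := by
    intro s hs
    simp [hs.2]
  have e2 : ∀ s ∈ Icc T1 T2, (fun t => if t ≤ T1 then x t else α t) s = α s := by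
    intro s hs
    rcases eq_or_lt_of_le hs.1 with h | h
    · subst h
      simp [hxa]
    · simp [not_le.2 h]
  rw [← Icc_union_Icc_eq_Icc h0 h12]
  apply HasDerivWithinAt.union
  · by_cases h : t ≤ T1
    · have ht1 : t ∈ Icc 0 T1 := ⟨ht.1, h⟩
      rw [e1 t ht1]
      exact (hx t ht1).congr e1 (e1 t ht1)
    · rw [hasDerivWithinAt_iff_hasFDerivWithinAt]
      apply HasFDerivWithinAt.of_notMem_closure
      rw [isClosed_Icc.closure_eq]
      intro h2
      exact h h2.2
  · by_cases h : T1 ≤ t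
    · have ht1 : t ∈ Icc T1 T2 := ⟨h, ht.2⟩
      rw [e2 t ht1]
      exact (hα t ht1).congr e2 (e2 t ht1)
    · rw [hasDerivWithinAt_iff_hasFDerivWithinAt]
      apply HasFDerivWithinAt.of_notMem_closure
      rw [isClosed_Icc.closure_eq]
      intro h2
      exact h h2.1

end Pool.Agent.H923R2.FP.T_ODE

open Pool.Agent.H923R2.FP Pool.Agent.H923R2.FP.T_ODE Set Metric in
theorem Pool.Agent.H923R2.FP.T_ODE.t_ODE : S_ODE := by
  intro E _ _ _ V hV x0 T r hT hap
  set R : ℝ := max r ‖x0‖ with hRdef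
  have hR0 : 0 ≤ R := le_max_of_le_right (norm_nonneg _)
  obtain ⟨K, hK⟩ := hV (R + 1)
  set C : ℝ := ‖V 0‖ + K * (R + 1) with hCdef
  have hC0 : 0 ≤ C := by positivity
  have hCb : ∀ x ∈ closedBall (0 : E) (R + 1), ‖V x‖ ≤ C := by
    intro x hx
    have h0 : (0 : E) ∈ closedBall (0 : E) (R + 1) := mem_closedBall_self (by linarith)
    have h1 := hK.dist_le_mul x hx 0 h0
    have h2 : dist x 0 ≤ R + 1 := hx
    have h3 : ‖V x‖ ≤ dist (V x) (V 0) + ‖V 0‖ := by
      rw [dist_eq_norm]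
      exact norm_le_norm_sub_add _ _
    have h4 : (K : ℝ) * dist x 0 ≤ K * (R + 1) := by gcongr
    linarith
  have hloc : ∀ (t0 t1 : ℝ) (y : E), t0 ≤ t1 → t1 - t0 ≤ 1 / (C + 1) → ‖y‖ ≤ R →
      ∃ α : ℝ → E, α t0 = y ∧ ∀ t ∈ Icc t0 t1, HasDerivWithinAt α (V (α t)) (Icc t0 t1) t := by
    intro t0 t1 y h01 hlen hy
    have hsub : closedBall y ((1 : NNReal) : ℝ) ⊆ closedBall (0 : E) (R + 1) := by
      apply closedBall_subset_closedBall'
      rw [dist_zero_right]
      push_cast
      linarith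
    have hpl : IsPicardLindelof (fun _ => V) (⟨t0, left_mem_Icc.2 h01⟩ : Icc t0 t1) y
        (1 : NNReal) (0 : NNReal) (⟨C, hC0⟩ : NNReal) K := by
      apply IsPicardLindelof.of_time_independent
      · intro x hx
        exact hCb x (hsub hx)
      · exact hK.mono hsub
      · have h5 : max (t1 - t0) (t0 - t0) = t1 - t0 := by
          rw [sub_self]; exact max_eq_left (by linarith)
        simp only [NNReal.coe_one, NNReal.coe_zero, sub_zero]
        rw [h5]
        calc C * (t1 - t0) ≤ C * (1 / (C + 1)) := mul_le_mul_of_nonneg_left hlen hC0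
          _ ≤ 1 := by
            rw [mul_one_div, div_le_one (by linarith)]
            linarith
    obtain ⟨α, h1, h2⟩ := hpl.exists_eq_forall_mem_Icc_hasDerivWithinAt₀
    exact ⟨α, h1, h2⟩
  have hstep : ∀ T1 T2 : ℝ, 0 ≤ T1 → T1 ≤ T2 → T2 ≤ T → T2 - T1 ≤ 1 / (C + 1) →
      Has V x0 T1 → Has V x0 T2 := by
    intro T1 T2 h1 h12 h2 hlen hH
    obtain ⟨x, hx0, hx⟩ := hH
    have hxT : ‖x T1‖ ≤ R := by
      rcases eq_or_lt_of_le h1 with h | h
      · rw [← h, hx0]
        exact le_max_right _ _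
      · exact (hap T1 x h (h12.trans h2) hx0 hx T1 (right_mem_Icc.2 h1)).trans (le_max_left _ _)
    obtain ⟨α, ha1, ha2⟩ := hloc T1 T2 (x T1) h12 hlen hxT
    refine ⟨fun t => if t ≤ T1 then x t else α t, ?_, glue h1 h12 hx ha2 ha1⟩
    simp [h1, hx0]
  have hbase : Has V x0 0 := by
    refine ⟨fun _ => x0, rfl, ?_⟩
    intro t ht
    rw [Icc_self] at ht ⊢
    have : t = 0 := ht
    subst this
    rw [hasDerivWithinAt_iff_hasFDerivWithinAt]
    exact HasFDerivWithinAt.of_finite (finite_singleton _)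
  have hC1 : 0 < 1 / (C + 1) := by positivity
  have hall : ∀ k : ℕ, Has V x0 (min (k * (1 / (C + 1))) T) := by
    intro k
    induction k with
    | zero =>
      rw [Nat.cast_zero, zero_mul, min_eq_left hT.le]
      exact hbase
    | succ k ih =>
      refine hstep _ _ ?_ ?_ (min_le_right _ _) ?_ ih
      · exact le_min (by positivity) hT.le
      · apply min_le_min_right
        push_cast
        nlinarith
      · push_cast
        rcases le_total ((k : ℝ) * (1 / (C + 1))) T with h | h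
        · rw [min_eq_left h]
          have := min_le_left (((k : ℝ) + 1) * (1 / (C + 1))) T
          linarith
        · rw [min_eq_right h]
          have := min_le_right (((k : ℝ) + 1) * (1 / (C + 1))) T
          linarith
  obtain ⟨k, hk⟩ := exists_nat_ge (T / (1 / (C + 1)))
  have hk2 : T ≤ k * (1 / (C + 1)) := by
    rwa [div_le_iff₀ hC1] at hk
  have := hall k
  rw [min_eq_right hk2] at this
  exact this
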